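import Pool.Agent.Helper22.TB.Goals

/-! Project TB (MP_74f661_nt), packet CLS: sum over a set with few elements in each class. -/

set_option autoImplicit false

open Finset Filter Topology
open scoped Classical

namespace Pool.Agent.Helper27.TB

open Pool.Agent.Helper22.TB

theorem gCLS : G_CLS := by
  intro hABL hKER hPDC hAVG hCMP q f S m n r hq hf hr0 hr1 hS hcl
  obtain ⟨ι, _, c, a, hc, ha, hfe⟩ := hf
  have hq1 : 1 ≤ q := hq.pos
  have hqR : (0 : ℝ) < q := by exact_mod_cast hq1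
  have hf0 : f 0 = ∑ i, c i := by
    rw [hfe]
    refine sum_congr rfl fun i _ => ?_
    have : 2 * Real.pi * (a i : ℝ) * ((0 : ℕ) : ℝ) / q = 0 := by
      push_cast
      simp
    rw [this, Real.cos_zero, mul_one]
  have hmin : 0 ≤ min 1 ((m : ℝ) * q * (1 - r)) :=
    le_min zero_le_one (mul_nonneg (by positivity) (by linarith))
  rcases S.eq_empty_or_nonempty with hSe | ⟨x0, hx0⟩
  · rw [hSe, sum_empty]
    have h1 : 0 ≤ f 0 := by
      rw [hf0]
      exact sum_nonneg fun i _ => hc i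
    positivity
  have hm1 : 1 ≤ m := (hS x0 hx0).1.trans (hS x0 hx0).2.1
  set ρ₀ : ℝ := r ^ m with hρ₀
  have hρ0 : 0 ≤ ρ₀ := pow_nonneg hr0 m
  have hρ1 : ρ₀ < 1 := pow_lt_one₀ hr0 hr1 (by omega)
  set W : ι → ℕ → ℝ := fun i x => Ab ρ₀ (fun k => Real.cos (2 * Real.pi * a i * (x * k : ℕ) / q))
    with hW
  have hform : ∀ (i : ι) (x : ℕ), (fun k : ℕ => Real.cos (2 * Real.pi * a i * (x * k : ℕ) / q)) =
      fun k : ℕ => Real.cos ((2 * Real.pi * a i * x / q) * k) := by
    intro i x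
    funext k
    congr 1
    push_cast
    ring
  have hW0 : ∀ i x, 0 ≤ W i x := by
    intro i x
    rw [hW]
    simp only
    rw [hform]
    exact (hKER _ ρ₀ hρ0 hρ1).2.2
  have hWmod : ∀ i x, W i x = W i (x % q) := by
    intro i x
    rw [hW]
    simp only
    congr 1
    funext k
    obtain ⟨t, ht⟩ : ∃ t : ℕ, t = x / q := ⟨_, rfl⟩
    have hx : ((x * k : ℕ) : ℝ) = ((x % q * k : ℕ) : ℝ) + ((q * t * k : ℕ) : ℝ) := by
      rw [← Nat.cast_add, ← add_mul, ht, Nat.mod_add_div]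
    have e : 2 * Real.pi * (a i : ℝ) * ((x * k : ℕ) : ℝ) / q =
        2 * Real.pi * (a i : ℝ) * ((x % q * k : ℕ) : ℝ) / q +
          ((a i * ((t * k : ℕ) : ℤ) : ℤ) : ℝ) * (2 * Real.pi) := by
      rw [hx]
      push_cast
      field_simp
    rw [e, Real.cos_add_int_mul_two_pi]
  -- the pointwise bound
  have hpt : ∀ x ∈ S, Ab (r ^ x) (fun k => f (x * k)) ≤ ∑ i, c i * (4 * W i x) := by
    intro x hx
    obtain ⟨h1, h2, h3⟩ := hS x hx
    have hx0 : 0 ≤ r ^ x := pow_nonneg hr0 x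
    have hx1 : r ^ x < 1 := pow_lt_one₀ hr0 hr1 (by omega)
    have e1 : (fun k => f (x * k)) =
        fun k : ℕ => ∑ i, c i * (fun (i : ι) (k : ℕ) =>
          Real.cos (2 * Real.pi * a i * (x * k : ℕ) / q)) i k := by
      funext k
      rw [hfe]
    rw [e1, hABL ι univ c _ (r ^ x) hx0 hx1]
    · refine sum_le_sum fun i _ => mul_le_mul_of_nonneg_left ?_ (hc i)
      rw [hW]
      simp only
      rw [hform]
      refine hCMP _ (r ^ x) ρ₀ hρ0 ?_ ?_ hx1
      · rw [← pow_mul, hρ₀]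
        exact pow_le_pow_of_le_one hr0 hr1.le (by omega)
      · exact pow_le_pow_of_le_one hr0 hr1.le h2
    · intro i _
      exact ⟨1, fun g => Real.abs_cos_le_one _⟩
  -- the sum over the classes
  have hsum : ∀ i, ∑ x ∈ S, W i x ≤ n * (q * min 1 ((m : ℝ) * q * (1 - r))) := by
    intro i
    have e1 : ∑ x ∈ S, W i x = ∑ c' ∈ range q, ((S.filter (fun x => x % q = c')).card : ℝ) * W i c' := by
      rw [← sum_fiberwise_of_maps_to (s := S) (t := range q) (g := fun x => x % q)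
        (fun x _ => mem_range.2 (Nat.mod_lt _ hq1))]
      refine sum_congr rfl fun c' _ => ?_
      rw [← nsmul_eq_mul, ← sum_const]
      refine sum_congr rfl fun x hx => ?_
      rw [hWmod, (mem_filter.1 hx).2]
    rw [e1]
    calc ∑ c' ∈ range q, ((S.filter (fun x => x % q = c')).card : ℝ) * W i c'
        ≤ ∑ c' ∈ range q, (n : ℝ) * W i c' := by
          refine sum_le_sum fun c' hc' => mul_le_mul_of_nonneg_right ?_ (hW0 i c')
          exact_mod_cast hcl c' (mem_range.1 hc')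
      _ = n * ∑ c' ∈ range q, W i c' := by rw [mul_sum]
      _ = n * (q * ((1 - ρ₀ ^ q) / (1 + ρ₀ ^ q))) := by
          rw [← hAVG q (a i) ρ₀ hq (ha i) hρ0 hρ1]
      _ ≤ n * (q * min 1 ((m : ℝ) * q * (1 - r))) := by
          refine mul_le_mul_of_nonneg_left (mul_le_mul_of_nonneg_left ?_ hqR.le)
            (Nat.cast_nonneg n)
          have hp0 : 0 ≤ ρ₀ ^ q := pow_nonneg hρ0 q
          have hp1 : ρ₀ ^ q ≤ 1 := pow_le_one₀ hρ0 hρ1.le
          have h1 : (1 - ρ₀ ^ q) / (1 + ρ₀ ^ q) ≤ 1 - ρ₀ ^ q := by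
            rw [div_le_iff₀ (by linarith)]
            nlinarith
          have h2 : 1 - ρ₀ ^ q ≤ (m : ℝ) * q * (1 - r) := by
            have h3 := one_add_mul_le_pow (show (-2 : ℝ) ≤ r - 1 by linarith) (m * q)
            have h4 : 1 + (r - 1) = r := by ring
            rw [h4, pow_mul, ← hρ₀] at h3
            push_cast at h3
            linarith
          exact h1.trans (le_min (by linarith) h2)
  calc ∑ x ∈ S, Ab (r ^ x) (fun k => f (x * k)) ≤ ∑ x ∈ S, ∑ i, c i * (4 * W i x) :=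
        sum_le_sum hpt
    _ = ∑ i, c i * (4 * ∑ x ∈ S, W i x) := by
        rw [sum_comm]
        refine sum_congr rfl fun i _ => ?_
        rw [mul_sum, mul_sum]
    _ ≤ ∑ i, c i * (4 * (n * (q * min 1 ((m : ℝ) * q * (1 - r))))) := by
        refine sum_le_sum fun i _ => mul_le_mul_of_nonneg_left ?_ (hc i)
        exact mul_le_mul_of_nonneg_left (hsum i) (by norm_num)
    _ = 4 * n * f 0 * q * min 1 (m * q * (1 - r)) := by
        rw [← sum_mul, hf0]
        ring

end Pool.Agent.Helper27.TB
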