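import Pool.Agent.Helper61.BFT.Rem
import Pool.Agent.Helper76.TB.GoalsT

/-! Project TB (MP_74f661_nt), packet REM2: expected loss by freezing the cutoff
(adaptation of Helper61/BFT/Rem.lean). -/

set_option autoImplicit false

open Finset MeasureTheory ProbabilityTheory
open Pool.Agent.Helper90.Twin (Ps)

namespace Pool.Agent.Helper27.TB

open Pool.Agent.Helper60.BFT Pool.Agent.Helper61.BFT
open Pool.Agent.Helper76.TB (AdH)

theorem diff_le (K : ℕ) (hK : 1 ≤ K) (ρ Z : ℕ → ℕ) (β : ℕ → ℕ → (ℕ → ℕ) → ℕ) (hZ : Monotone Z)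
    (hβ : AdH ρ β) (r : ℕ) (hr5 : 5 ≤ Z (r ^ K)) (hrZ : ρ r ≤ Z (r ^ K)) (a : ℕ → ℕ) (i : ℕ)
    (hi : i < len K r) :
    |YF K Z β r a (r ^ K + i) - YP K Z β a (r ^ K + i)|
      ≤ ∑ p ∈ Ps (Z ((r + 1) ^ K)) \ Ps (Z (r ^ K)),
          (ind (r ^ K + i) p a + ind (r ^ K + i + 2) p a) := by
  classical
  set n : ℕ := r ^ K + i with hn
  have hn1 : r ^ K ≤ n := by omega
  have hn2 : n < (r + 1) ^ K := block_lt K r i hi
  have hroot : root K n = r := root_block K r n hK hn1 hn2
  have hZ1 : Z (r ^ K) ≤ Z n := hZ hn1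
  have hZ2 : Z n ≤ Z ((r + 1) ^ K) := hZ hn2.le
  have hcls : ∀ p, cls K β a n p = if p ≤ r then β r p a else a p := by
    intro p
    unfold cls
    rw [hroot]
  have hnn : 0 ≤ ∑ p ∈ Ps (Z ((r + 1) ^ K)) \ Ps (Z (r ^ K)), (ind n p a + ind (n + 2) p a) :=
    Finset.sum_nonneg (fun p _ => add_nonneg (ind_nonneg _ _ _) (ind_nonneg _ _ _))
  by_cases hP : Pair K Z β a n
  · have h1 : YP K Z β a n = 1 := by
      unfold YP
      rw [if_pos hP]
    have h2 : YF K Z β r a n = 1 := by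
      unfold YF
      rw [if_pos]
      refine ⟨hP.1, ?_⟩
      intro p hp h3 hpZ
      have := hP.2 p hp h3 (hpZ.trans hZ1)
      rwa [hcls] at this
    rw [h1, h2, sub_self, abs_zero]
    exact hnn
  · have h1 : YP K Z β a n = 0 := by
      unfold YP
      rw [if_neg hP]
    by_cases hF : n % 2 = 1 ∧ ∀ p : ℕ, p.Prime → 3 ≤ p → p ≤ Z (r ^ K) →
      ¬ n ≡ (if p ≤ r then β r p a else a p) [MOD p] ∧
      ¬ n + 2 ≡ (if p ≤ r then β r p a else a p) [MOD p]
    · have h2 : YF K Z β r a n = 1 := by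
        unfold YF
        rw [if_pos hF]
      rw [h1, h2, sub_zero, abs_one]
      unfold Pair at hP
      push Not at hP
      obtain ⟨p, hp, h3, hpZ, h4⟩ := hP hF.1
      have hpZ' : Z (r ^ K) < p := by
        by_contra hcon
        have h5 := hF.2 p hp h3 (not_lt.1 hcon)
        rw [hcls] at h4
        exact h5.2 (h4 h5.1)
      have hcp : cls K β a n p = a p := by
        rw [hcls]
        split_ifs
        · exact hβ.large r p (by omega) a
        · rfl
      rw [hcp] at h4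
      have hmem : p ∈ Ps (Z ((r + 1) ^ K)) \ Ps (Z (r ^ K)) := by
        rw [Finset.mem_sdiff, Helper90.Twin.mem_Ps, Helper90.Twin.mem_Ps]
        refine ⟨⟨by omega, hpZ.trans hZ2, hp⟩, ?_⟩
        rintro ⟨_, h, _⟩
        omega
      have h6 : (1 : ℝ) ≤ ind n p a + ind (n + 2) p a := by
        by_cases h7 : n ≡ a p [MOD p]
        · have : ind n p a = 1 := by
            unfold ind
            rw [if_pos h7]
          linarith [ind_nonneg (n + 2) p a]
        · have : ind (n + 2) p a = 1 := by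
            unfold ind
            rw [if_pos (h4 h7)]
          linarith [ind_nonneg n p a]
      refine h6.trans ?_
      exact Finset.single_le_sum (f := fun p => ind n p a + ind (n + 2) p a)
        (fun p _ => add_nonneg (ind_nonneg _ _ _) (ind_nonneg _ _ _)) hmem
    · have h2 : YF K Z β r a n = 0 := by
        unfold YF
        rw [if_neg hF]
      rw [h1, h2, sub_self, abs_zero]
      exact hnn

theorem rem2 : Pool.Agent.Helper76.TB.REM2G := by
  intro Ω _ μ _ ω hω ρ Z β hZ hρ hβ r hr5 hrZ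
  set D := Ps (Z ((r + 1) ^ 4)) \ Ps (Z (r ^ 4)) with hD
  have hsub : Ps (Z (r ^ 4)) ⊆ Ps (Z ((r + 1) ^ 4)) := by
    intro p hp
    rw [Helper90.Twin.mem_Ps] at hp ⊢
    exact ⟨hp.1, hp.2.1.trans (hZ (Nat.pow_le_pow_left (Nat.le_succ r) 4)), hp.2.2⟩
  have hDp : ∀ p ∈ D, p.Prime := by
    intro p hp
    rw [hD, Finset.mem_sdiff, Helper90.Twin.mem_Ps] at hp
    exact hp.1.2.2
  have hint : ∀ i ∈ range (len 4 r), ∀ p ∈ D, Integrable (fun w =>
      ind (r ^ 4 + i) p (fun q => ω q w) + ind (r ^ 4 + i + 2) p (fun q => ω q w)) μ :=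
    fun i _ p _ => (int_ind hω p _).add (int_ind hω p _)
  have hint' : ∀ i ∈ range (len 4 r), Integrable (fun w => ∑ p ∈ D,
      (ind (r ^ 4 + i) p (fun q => ω q w) + ind (r ^ 4 + i + 2) p (fun q => ω q w))) μ :=
    fun i hi => integrable_finsetSum _ (fun p hp => hint i hi p hp)
  have h1 : ∫ w, Rem 4 Z β r (fun p => ω p w) ∂μ
      ≤ ∫ w, ∑ i ∈ range (len 4 r), ∑ p ∈ D,
        (ind (r ^ 4 + i) p (fun q => ω q w) + ind (r ^ 4 + i + 2) p (fun q => ω q w)) ∂μ := by
    apply integral_mono_of_nonneg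
    · exact Filter.Eventually.of_forall (fun w => Finset.sum_nonneg (fun i _ => abs_nonneg _))
    · exact integrable_finsetSum _ hint'
    · refine Filter.Eventually.of_forall (fun w => ?_)
      exact Finset.sum_le_sum (fun i hi =>
        diff_le 4 (by norm_num) ρ Z β hZ hβ r hr5 hrZ (fun p => ω p w) i (mem_range.1 hi))
  refine h1.trans ?_
  rw [integral_finsetSum _ hint']
  have h2 : ∀ i ∈ range (len 4 r), ∫ w, ∑ p ∈ D,
        (ind (r ^ 4 + i) p (fun q => ω q w) + ind (r ^ 4 + i + 2) p (fun q => ω q w)) ∂μ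
        ≤ ∑ p ∈ D, 2 / (p : ℝ) := by
    intro i hi
    rw [integral_finsetSum _ (hint i hi)]
    apply Finset.sum_le_sum
    intro p hp
    rw [integral_add (int_ind hω p _) (int_ind hω p _)]
    have h3 := integral_ind_le hω p (hDp p hp) (r ^ 4 + i)
    have h4 := integral_ind_le hω p (hDp p hp) (r ^ 4 + i + 2)
    have h5 : (2 : ℝ) / p = 1 / p + 1 / p := by ring
    rw [h5]
    exact add_le_add h3 h4
  refine (Finset.sum_le_sum h2).trans ?_
  rw [Finset.sum_const, Finset.card_range, nsmul_eq_mul]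
  have h6 := Finset.sum_sdiff (f := fun p : ℕ => 2 / (p : ℝ)) hsub
  rw [← hD] at h6
  apply le_of_eq
  rw [← h6]
  ring

end Pool.Agent.Helper27.TB
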